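import Pool.Agent.Q95.KS.TupA
import Pool.Agent.Helper112.Arith

/-!
# KS-TUP: the von Mangoldt function near `e^Y` as a combination of ten-fold products
-/

set_option autoImplicit false

namespace Pool.Agent.Q95.KS

open Finset Pool.Agent.H376R2.MR Pool.Agent.Q240.KS

/-- the factor as an arithmetic function -/
noncomputable def af (z : ℕ) (t : Fin 3) (d : ℕ) : ArithmeticFunction ℝ :=
  ⟨fun n => cf z t d n, by simp [cf]⟩

theorem af_apply (z : ℕ) (t : Fin 3) (d n : ℕ) : af z t d n = cf z t d n := rfl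

/-- the product of the ten factors -/
noncomputable def TT (z : ℕ) (d : Fin 10 → ℕ) : ArithmeticFunction ℝ := ∏ i, af z (ty i) (d i)

theorem af_sum_apply {ι : Type*} (s : Finset ι) (f : ι → ArithmeticFunction ℝ) (n : ℕ) :
    (∑ i ∈ s, f i) n = ∑ i ∈ s, f i n := by
  classical
  induction s using Finset.induction_on with
  | empty => simp
  | insert a s ha ih => rw [sum_insert ha, sum_insert ha, ArithmeticFunction.add_apply, ih]

theorem cf_ne {z : ℕ} {t : Fin 3} {d n : ℕ} (h : cf z t d n ≠ 0) :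
    |Real.log n - (d : ℝ) / 20| ≤ 1 / 20 := by
  have h1 : w (20 * Real.log n - d) ≠ 0 := by
    intro h0
    apply h
    unfold cf
    rw [h0]
    simp
  have h2 := w_ne h1
  rw [abs_lt] at h2
  rw [abs_le]
  constructor <;> linarith [h2.1, h2.2]

theorem af_sup (z : ℕ) (t : Fin 3) (d : ℕ) : Sup (af z t d) ⌊Real.exp (((d : ℝ) + 1) / 20)⌋₊ := by
  intro n hn
  by_contra hne
  rw [af_apply] at hne
  have h1 := (abs_le.mp (cf_ne hne)).2
  have h2 : Real.log n ≤ ((d : ℝ) + 1) / 20 := by linarith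
  have hn0 : 0 < n := by omega
  have h3 : (n : ℝ) ≤ Real.exp (((d : ℝ) + 1) / 20) := by
    rw [← Real.log_le_iff_le_exp (by exact_mod_cast hn0)]
    exact h2
  have := Nat.le_floor h3
  omega

theorem supp_prod (z : ℕ) (d : Fin 10 → ℕ) (s : Finset (Fin 10)) :
    ∀ n : ℕ, (∏ i ∈ s, af z (ty i) (d i)) n ≠ 0 →
      |Real.log n - (∑ i ∈ s, (d i : ℝ)) / 20| ≤ (s.card : ℝ) / 20 := by
  induction s using Finset.induction_on with
  | empty =>
    intro n hn
    rw [prod_empty] at hn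
    have : n = 1 := by
      by_contra h
      exact hn (ArithmeticFunction.one_apply_ne h)
    rw [this]
    simp
  | insert a s ha ih =>
    intro n hn
    rw [prod_insert ha, ArithmeticFunction.mul_apply] at hn
    obtain ⟨⟨x, y⟩, hxy, hne⟩ := exists_ne_zero_of_sum_ne_zero hn
    rw [Nat.mem_divisorsAntidiagonal] at hxy
    simp only at hxy hne
    have h1 : af z (ty a) (d a) x ≠ 0 := left_ne_zero_of_mul hne
    have h2 := ih y (right_ne_zero_of_mul hne)
    have h3 := cf_ne h1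
    have hx0 : (x : ℝ) ≠ 0 := by
      have : x ≠ 0 := fun h => hxy.2 (by rw [← hxy.1, h, zero_mul])
      exact_mod_cast this
    have hy0 : (y : ℝ) ≠ 0 := by
      have : y ≠ 0 := fun h => hxy.2 (by rw [← hxy.1, h, mul_zero])
      exact_mod_cast this
    have e1 : Real.log (n : ℝ) = Real.log x + Real.log y := by
      rw [← hxy.1]
      push_cast
      exact Real.log_mul hx0 hy0
    rw [sum_insert ha, card_insert_of_notMem ha, e1]
    push_cast
    rw [abs_le] at h2 h3 ⊢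
    constructor <;> linarith [h2.1, h2.2, h3.1, h3.2]

theorem TT_ne {z : ℕ} {d : Fin 10 → ℕ} {n : ℕ} (h : TT z d n ≠ 0) :
    |Real.log n - (∑ i, (d i : ℝ)) / 20| ≤ 1 / 2 := by
  have h1 := supp_prod z d univ n h
  rw [card_univ, Fintype.card_fin] at h1
  norm_num at h1
  norm_num
  exact h1

theorem DY_sum {Y : ℝ} {d : Fin 10 → ℕ} (h : d ∈ DY Y) : |(∑ i, (d i : ℝ)) / 20 - Y| ≤ 1 := by
  unfold DY at h
  rw [mem_filter] at h
  exact h.2

theorem TT_DY {z : ℕ} {Y : ℝ} {d : Fin 10 → ℕ} {n : ℕ} (hd : d ∈ DY Y) (h : TT z d n ≠ 0) :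
    |Real.log n - Y| ≤ 3 / 2 := by
  have h1 := TT_ne h
  have h2 := DY_sum hd
  rw [abs_le] at h1 h2 ⊢
  constructor <;> linarith [h1.1, h1.2, h2.1, h2.2]

theorem TT_sup {z : ℕ} {Y : ℝ} {d : Fin 10 → ℕ} (hd : d ∈ DY Y) :
    Sup (TT z d) ⌊Real.exp (Y + 3 / 2)⌋₊ := by
  intro n hn
  by_contra hne
  have h1 := (abs_le.mp (TT_DY hd hne)).2
  have hn0 : 0 < n := by omega
  have h3 : (n : ℝ) ≤ Real.exp (Y + 3 / 2) := by
    rw [← Real.log_le_iff_le_exp (by exact_mod_cast hn0)]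
    linarith
  have := Nat.le_floor h3
  omega

theorem EE_eq {z : ℕ} {Y : ℝ} {d : Fin 10 → ℕ} (hd : d ∈ DY Y) (k : ℤ) :
    EE z d k = Lf k ⌊Real.exp (Y + 3 / 2)⌋₊ (TT z d) := by
  have h1 := Lf_prod k univ (fun i => ⌊Real.exp (((d i : ℝ) + 1) / 20)⌋₊)
    (fun i => af z (ty i) (d i)) (fun i => af_sup z (ty i) (d i))
  have h2 : EE z d k = ∏ i, Lf k ⌊Real.exp (((d i : ℝ) + 1) / 20)⌋₊ (af z (ty i) (d i)) := rfl
  rw [h2, h1.2]
  exact Lf_indep k h1.1 (TT_sup hd)

/-- the coefficients -/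
noncomputable def aY (Y : ℝ) (n : ℕ) : ℝ := ∑ d ∈ DY Y, (ed d : ℝ) * TT (zY Y) d n

theorem AA_eq (Y : ℝ) (k : ℤ) :
    AA (zY Y) Y k = DP (Icc 1 ⌊Real.exp (Y + 3 / 2)⌋₊) (fun n => ((aY Y n : ℝ) : ℂ)) k := by
  have h1 : AA (zY Y) Y k = ∑ d ∈ DY Y, (ed d : ℂ) *
      ∑ n ∈ Icc 1 ⌊Real.exp (Y + 3 / 2)⌋₊, ((TT (zY Y) d n : ℝ) : ℂ) * ch k (Real.log n) := by
    unfold AA
    apply sum_congr rfl
    intro d hd
    rw [EE_eq hd]
    rfl
  rw [h1]
  unfold DP
  simp only [mul_sum]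
  rw [sum_comm]
  apply sum_congr rfl
  intro n _
  unfold aY
  push_cast
  rw [sum_mul]
  apply sum_congr rfl
  intro d _
  ring

theorem aY_zero {Y : ℝ} {n : ℕ} (h : 3 / 2 < |Real.log n - Y|) : aY Y n = 0 := by
  unfold aY
  apply sum_eq_zero
  intro d hd
  by_cases h0 : TT (zY Y) d n = 0
  · rw [h0, mul_zero]
  · have := TT_DY hd h0
    linarith

/-! ### the identity -/

/-- the base functions -/
noncomputable def hh (z j i : ℕ) : ArithmeticFunction ℝ :=
  if (j ≤ i ∧ i < 5) ∨ (4 + j ≤ i ∧ i < 9) then 1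
  else if i < 5 then Mz z
  else if i < 9 then ((ArithmeticFunction.zeta : ArithmeticFunction ℕ) : ArithmeticFunction ℝ)
  else ArithmeticFunction.log

theorem hh_prod (z j : ℕ) (hj : j ∈ Icc 1 5) : ∏ i : Fin 10, hh z j i =
    (Mz z) ^ j * ((ArithmeticFunction.zeta : ArithmeticFunction ℕ) : ArithmeticFunction ℝ) ^ (j - 1) *
      ArithmeticFunction.log := by
  rw [Fin.prod_univ_eq_prod_range (fun i => hh z j i) 10]
  rw [mem_Icc] at hj
  obtain ⟨h1, h2⟩ := hj
  interval_cases j <;> simp [prod_range_succ, hh] <;> ring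

/-- the range of the variables -/
noncomputable def SJ (R j : ℕ) (i : Fin 10) : Finset ℕ :=
  if (j ≤ (i : ℕ) ∧ (i : ℕ) < 5) ∨ (4 + j ≤ (i : ℕ) ∧ (i : ℕ) < 9) then {0} else range R

theorem filter_eq (R j : ℕ) (hR : 0 < R) :
    (Fintype.piFinset fun _ : Fin 10 => range R).filter
      (fun d => ∀ i : Fin 10, ((j ≤ (i : ℕ) ∧ (i : ℕ) < 5) ∨ (4 + j ≤ (i : ℕ) ∧ (i : ℕ) < 9)) →
        d i = 0) = Fintype.piFinset (SJ R j) := by
  ext d
  rw [mem_filter, Fintype.mem_piFinset, Fintype.mem_piFinset]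
  constructor
  · rintro ⟨h1, h2⟩ i
    unfold SJ
    split_ifs with h
    · rw [mem_singleton]
      exact h2 i h
    · exact h1 i
  · intro h
    constructor
    · intro i
      have := h i
      unfold SJ at this
      split_ifs at this with h'
      · rw [mem_singleton] at this
        rw [this, mem_range]
        exact hR
      · exact this
    · intro i hi
      have := h i
      unfold SJ at this
      rw [if_pos hi, mem_singleton] at this
      exact this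

theorem ty0 {i : Fin 10} (h : (i : ℕ) < 5) : ty i = 0 := by
  unfold ty
  rw [if_pos h]

theorem ty1 {i : Fin 10} (h1 : 5 ≤ (i : ℕ)) (h2 : (i : ℕ) < 9) : ty i = 1 := by
  unfold ty
  rw [if_neg (by omega), if_pos h2]

theorem ty2 {i : Fin 10} (h1 : 9 ≤ (i : ℕ)) : ty i = 2 := by
  unfold ty
  rw [if_neg (by omega), if_neg (by omega)]

/-- the weight of the type -/
noncomputable def gt (z : ℕ) (t : Fin 3) (n : ℕ) : ℝ :=
  if t = 0 then (if n ≤ z then ((ArithmeticFunction.moebius n : ℤ) : ℝ) else 0)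
    else if t = 1 then 1 else Real.log n

theorem cf_eq (z : ℕ) (t : Fin 3) (d n : ℕ) :
    cf z t d n = gt z t n * w (20 * Real.log n - d) / n := rfl

theorem fac_one {z j : ℕ} (hz : 1 ≤ z) (hj : 1 ≤ j) (i : Fin 10)
    (hi : (j ≤ (i : ℕ) ∧ (i : ℕ) < 5) ∨ (4 + j ≤ (i : ℕ) ∧ (i : ℕ) < 9)) (m : ℕ) :
    af z (ty i) 0 m = sc 1 m := by
  rw [sc_one, af_apply]
  by_cases h1 : m = 1
  · rw [h1, cf_eq]
    have hg : gt z (ty i) 1 = 1 := by
      rcases hi with h | h
      · rw [ty0 h.2]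
        unfold gt
        rw [if_pos rfl, if_pos hz]
        simp
      · rw [ty1 (by omega) h.2]
        unfold gt
        simp
    rw [hg]
    simp [w_zero]
  · rw [ArithmeticFunction.one_apply_ne h1]
    rcases Nat.eq_zero_or_pos m with h0 | h0
    · rw [h0]
      simp [cf]
    · have h2 : 2 ≤ m := by omega
      have h3 : Real.log 2 ≤ Real.log m := Real.log_le_log (by norm_num) (by exact_mod_cast h2)
      have h4 := Real.log_two_gt_d9
      rw [cf_eq, w_eq_zero]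
      · simp
      · rw [le_abs]
        left
        push_cast
        linarith

theorem fac_free {z j : ℕ} (i : Fin 10)
    (hi : ¬ ((j ≤ (i : ℕ) ∧ (i : ℕ) < 5) ∨ (4 + j ≤ (i : ℕ) ∧ (i : ℕ) < 9))) (R m : ℕ)
    (hm : m ≠ 0) (hR : 20 * Real.log m + 1 < R) :
    ∑ d ∈ range R, af z (ty i) d m = sc (hh z j i) m := by
  have hlog : 0 ≤ Real.log (m : ℝ) := Real.log_natCast_nonneg m
  have h1 : ∑ d ∈ range R, af z (ty i) d m = gt z (ty i) m / m := by
    have e1 : ∀ d ∈ range R, af z (ty i) d m = gt z (ty i) m / m * w (20 * Real.log m - d) := by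
      intro d _
      rw [af_apply, cf_eq]
      ring
    rw [sum_congr rfl e1, ← mul_sum, w_part _ (by positivity) R hR, mul_one]
  rw [h1, sc_apply]
  congr 1
  unfold hh
  rw [if_neg hi]
  split_ifs with h5 h9
  · rw [ty0 h5]
    rfl
  · rw [ty1 (by omega) h9]
    simp [gt, hm]
  · rw [ty2 (by omega)]
    simp [gt, ArithmeticFunction.log_apply]

theorem sum_j {z j R n : ℕ} (hz : 1 ≤ z) (hj : j ∈ Icc 1 5) (hn : n ≠ 0)
    (hR : 20 * Real.log n + 1 < R) :
    ∑ d ∈ Fintype.piFinset (SJ R j), TT z d n =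
      ((Mz z) ^ j * ((ArithmeticFunction.zeta : ArithmeticFunction ℕ) : ArithmeticFunction ℝ) ^ (j - 1) *
      ArithmeticFunction.log) n / n := by
  have h1 : ∑ d ∈ Fintype.piFinset (SJ R j), TT z d =
      ∏ i, ∑ d ∈ SJ R j i, af z (ty i) d := by
    rw [prod_univ_sum]
    rfl
  have h2 : ∑ d ∈ Fintype.piFinset (SJ R j), TT z d n =
      (∑ d ∈ Fintype.piFinset (SJ R j), TT z d) n := by
    rw [af_sum_apply]
  rw [h2, h1, ← hh_prod z j hj, ← sc_apply, ← sc_prod]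
  refine prod_congr_dvd (n := n) univ _ _ ?_ n dvd_rfl
  intro i m hm
  have hm0 : m ≠ 0 := fun h0 => hn (by rw [h0] at hm; exact zero_dvd_iff.mp hm)
  have hle : Real.log m ≤ Real.log n := by
    apply Real.log_le_log
    · have : 0 < m := Nat.pos_of_ne_zero hm0
      exact_mod_cast this
    · exact_mod_cast Nat.le_of_dvd (Nat.pos_of_ne_zero hn) hm
  rw [af_sum_apply]
  unfold SJ
  by_cases hi : (j ≤ (i : ℕ) ∧ (i : ℕ) < 5) ∨ (4 + j ≤ (i : ℕ) ∧ (i : ℕ) < 9)
  · rw [if_pos hi, sum_singleton]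
    have e1 : hh z j i = 1 := by
      unfold hh
      rw [if_pos hi]
    rw [e1]
    exact fac_one hz (mem_Icc.mp hj).1 i hi m
  · rw [if_neg hi]
    exact fac_free i hi R m hm0 (by linarith)

theorem zY_pos {Y : ℝ} (hY : 2 ≤ Y) : 1 ≤ zY Y := by
  unfold zY
  apply Nat.le_floor
  have := Real.one_le_exp (show 0 ≤ (Y + 2) / 5 by linarith)
  simpa using this

theorem lt_zY {Y : ℝ} {n : ℕ} (hn : 1 ≤ n) (h : Real.log n ≤ Y + 1 / 2) :
    n < (zY Y + 1) ^ 5 := by
  have h1 : Real.exp ((Y + 2) / 5) < (zY Y : ℝ) + 1 := Nat.lt_floor_add_one _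
  have h2 : Real.exp ((Y + 2) / 5) ^ 5 < ((zY Y : ℝ) + 1) ^ 5 :=
    pow_lt_pow_left₀ h1 (Real.exp_pos _).le (by norm_num)
  have h3 : Real.exp ((Y + 2) / 5) ^ 5 = Real.exp (Y + 2) := by
    rw [← Real.exp_nat_mul]
    congr 1
    push_cast
    ring
  have h4 : (n : ℝ) ≤ Real.exp (Y + 2) := by
    rw [← Real.log_le_iff_le_exp (by exact_mod_cast hn)]
    linarith
  have h5 : (n : ℝ) < ((zY Y : ℝ) + 1) ^ 5 := by linarith
  exact_mod_cast h5

theorem aY_eq (hHB : S_HB) {Y : ℝ} (hY : 2 ≤ Y) {n : ℕ} (hn : 1 ≤ n)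
    (h : |Real.log n - Y| ≤ 1 / 2) : aY Y n = ArithmeticFunction.vonMangoldt n / n := by
  have hz := zY_pos hY
  have hn0 : n ≠ 0 := by omega
  have hRlt : 20 * (Y + 1) < ((⌊20 * (Y + 1)⌋₊ + 1 : ℕ) : ℝ) := by
    push_cast
    exact Nat.lt_floor_add_one _
  have hlog := abs_le.mp h
  set R : ℕ := ⌊20 * (Y + 1)⌋₊ + 1 with hR
  have h1 : aY Y n = ∑ d ∈ Fintype.piFinset (fun _ : Fin 10 => range R),
      (ed d : ℝ) * TT (zY Y) d n := by
    unfold aY
    apply sum_subset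
    · exact filter_subset _ _
    · intro d hd hnd
      have h0 : TT (zY Y) d n = 0 := by
        by_contra hne
        apply hnd
        unfold DY
        rw [mem_filter]
        refine ⟨hd, ?_⟩
        have h2 := abs_le.mp (TT_ne hne)
        rw [abs_le]
        constructor <;> linarith [h2.1, h2.2, hlog.1, hlog.2]
      rw [h0, mul_zero]
  have h2 : ∀ d : Fin 10 → ℕ, (ed d : ℝ) * TT (zY Y) d n = ∑ j ∈ Icc 1 5,
      (-1 : ℝ) ^ (j + 1) * (Nat.choose 5 j : ℝ) *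
        (if ∀ i : Fin 10, ((j ≤ (i : ℕ) ∧ (i : ℕ) < 5) ∨ (4 + j ≤ (i : ℕ) ∧ (i : ℕ) < 9)) → d i = 0
          then TT (zY Y) d n else 0) := by
    intro d
    unfold ed
    push_cast
    rw [sum_mul]
    apply sum_congr rfl
    intro j _
    split_ifs
    · ring
    · ring
  rw [h1, sum_congr rfl (fun d _ => h2 d), sum_comm, hHB (zY Y) n hz hn (lt_zY hn (by linarith)),
    sum_div]
  apply sum_congr rfl
  intro j hj
  rw [← mul_sum, ← sum_filter, filter_eq R j (by omega),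
    sum_j hz hj hn0 (by linarith [hlog.2]), mul_div_assoc]

/-! ### the bound -/

theorem ed_bound (d : Fin 10 → ℕ) : |(ed d : ℝ)| ≤ 31 := by
  have h1 : |ed d| ≤ 31 := by
    unfold ed
    refine (abs_sum_le_sum_abs _ _).trans ?_
    have h2 : ∀ j ∈ Icc 1 5, |(-1 : ℤ) ^ (j + 1) * ((Nat.choose 5 j : ℕ) : ℤ) *
        (if ∀ i : Fin 10, ((j ≤ (i : ℕ) ∧ (i : ℕ) < 5) ∨ (4 + j ≤ (i : ℕ) ∧ (i : ℕ) < 9)) → d i = 0
          then 1 else 0)| ≤ ((Nat.choose 5 j : ℕ) : ℤ) := by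
      intro j _
      rw [abs_mul, abs_mul, abs_pow, abs_neg, abs_one, one_pow, one_mul]
      split_ifs
      · simp
      · simp
    refine (sum_le_sum h2).trans ?_
    decide
  exact_mod_cast h1

theorem gt_bound {z n m : ℕ} (t : Fin 3) (hn : n ≠ 0) (hm : m ∣ n) :
    |gt z t m| ≤ 1 + Real.log n := by
  have hm0 : m ≠ 0 := fun h0 => hn (by rw [h0] at hm; exact zero_dvd_iff.mp hm)
  have hle : Real.log m ≤ Real.log n := by
    apply Real.log_le_log
    · have : 0 < m := Nat.pos_of_ne_zero hm0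
      exact_mod_cast this
    · exact_mod_cast Nat.le_of_dvd (Nat.pos_of_ne_zero hn) hm
  have hlm : 0 ≤ Real.log (m : ℝ) := Real.log_natCast_nonneg m
  have hln : 0 ≤ Real.log (n : ℝ) := Real.log_natCast_nonneg n
  unfold gt
  split_ifs
  · have h1 : |ArithmeticFunction.moebius m| ≤ 1 := ArithmeticFunction.abs_moebius_le_one
    have h2 : |((ArithmeticFunction.moebius m : ℤ) : ℝ)| ≤ 1 := by exact_mod_cast h1
    linarith
  · rw [abs_zero]
    linarith
  · rw [abs_one]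
    linarith
  · rw [abs_of_nonneg hlm]
    linarith

theorem TT_bound (z : ℕ) (d : Fin 10 → ℕ) {n : ℕ} (hn : n ≠ 0) :
    |TT z d n| ≤ (1 + Real.log n) ^ 10 * (n.divisors.card : ℝ) ^ 10 / n := by
  have hln : 0 ≤ Real.log (n : ℝ) := Real.log_natCast_nonneg n
  have h1 := prod_bound hn univ (fun i => af z (ty i) (d i)) (fun _ => 1 + Real.log n)
    (fun _ => by positivity) ?_ n dvd_rfl
  · rw [prod_const, card_univ, Fintype.card_fin] at h1
    exact h1
  · intro i m hm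
    rw [af_apply, cf_eq, abs_div, abs_mul, abs_of_nonneg (w_nonneg _), Nat.abs_cast]
    apply div_le_div_of_nonneg_right _ (Nat.cast_nonneg _)
    calc |gt z (ty i) m| * w (20 * Real.log m - (d i)) ≤ (1 + Real.log n) * 1 := by
          apply mul_le_mul (gt_bound _ hn hm) (w_le_one _) (w_nonneg _) (by positivity)
      _ = 1 + Real.log n := mul_one _

theorem DY_card (Y : ℝ) : ((DY Y).card : ℝ) ≤ ((⌊20 * (Y + 1)⌋₊ + 1 : ℕ) : ℝ) ^ 10 := by
  have h1 : (DY Y).card ≤ (⌊20 * (Y + 1)⌋₊ + 1) ^ 10 := by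
    unfold DY
    refine (card_filter_le _ _).trans ?_
    rw [Fintype.card_piFinset]
    simp
  exact_mod_cast h1

theorem aY_bound {Y C ε : ℝ} (hY : 2 ≤ Y) (hε : 0 < ε) (hC : 0 < C)
    (hdiv : ∀ n : ℕ, 1 ≤ n → (n.divisors.card : ℝ) ≤ C * (n : ℝ) ^ (ε / 40))
    (hbig : (31 * 41 ^ 10 * 4 ^ 10 * C ^ 10 * Real.exp (3 * ε / 8)) * Y ^ 20 ≤
      Real.exp (3 * ε / 4 * Y))
    {n : ℕ} (hn : 1 ≤ n) : |aY Y n| ≤ Real.exp (ε * Y) / n := by
  by_cases hfar : 3 / 2 < |Real.log n - Y|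
  · rw [aY_zero hfar, abs_zero]
    positivity
  · have hlog := (abs_le.mp (not_lt.mp hfar)).2
    have hn0 : n ≠ 0 := by omega
    have hnpos : (0 : ℝ) < n := by exact_mod_cast hn
    have hln : 0 ≤ Real.log (n : ℝ) := Real.log_natCast_nonneg n
    have hdiv10 : (n.divisors.card : ℝ) ^ 10 ≤ C ^ 10 * Real.exp (ε / 4 * (Y + 3 / 2)) := by
      have e1 : (n.divisors.card : ℝ) ^ 10 ≤ (C * (n : ℝ) ^ (ε / 40)) ^ 10 :=
        pow_le_pow_left₀ (Nat.cast_nonneg _) (hdiv n hn) 10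
      have e2 : (C * (n : ℝ) ^ (ε / 40)) ^ 10 = C ^ 10 * Real.exp (ε / 4 * Real.log n) := by
        rw [mul_pow]
        congr 1
        rw [Real.rpow_def_of_pos hnpos, ← Real.exp_nat_mul]
        congr 1
        push_cast
        ring
      rw [e2] at e1
      refine e1.trans ?_
      apply mul_le_mul_of_nonneg_left _ (by positivity)
      apply Real.exp_le_exp.mpr
      apply mul_le_mul_of_nonneg_left _ (by positivity)
      linarith
    have hT : ∀ d ∈ DY Y, |(ed d : ℝ) * TT (zY Y) d n| ≤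
        31 * ((4 * Y) ^ 10 * (C ^ 10 * Real.exp (ε / 4 * (Y + 3 / 2))) / n) := by
      intro d _
      rw [abs_mul]
      apply mul_le_mul (ed_bound d) _ (abs_nonneg _) (by norm_num)
      refine (TT_bound (zY Y) d hn0).trans ?_
      apply div_le_div_of_nonneg_right _ hnpos.le
      apply mul_le_mul _ hdiv10 (by positivity) (by positivity)
      apply pow_le_pow_left₀ (by positivity)
      linarith
    have hR : ((⌊20 * (Y + 1)⌋₊ + 1 : ℕ) : ℝ) ≤ 41 * Y := by
      push_cast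
      have := Nat.floor_le (show 0 ≤ 20 * (Y + 1) by linarith)
      linarith
    have hcard : ((DY Y).card : ℝ) ≤ (41 * Y) ^ 10 :=
      (DY_card Y).trans (pow_le_pow_left₀ (Nat.cast_nonneg _) hR 10)
    calc |aY Y n| ≤ ∑ d ∈ DY Y, |(ed d : ℝ) * TT (zY Y) d n| := abs_sum_le_sum_abs _ _
      _ ≤ ∑ d ∈ DY Y, 31 * ((4 * Y) ^ 10 * (C ^ 10 * Real.exp (ε / 4 * (Y + 3 / 2))) / n) :=
          sum_le_sum hT
      _ = ((DY Y).card : ℝ) *
          (31 * ((4 * Y) ^ 10 * (C ^ 10 * Real.exp (ε / 4 * (Y + 3 / 2))) / n)) := by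
          rw [sum_const, nsmul_eq_mul]
      _ ≤ (41 * Y) ^ 10 *
          (31 * ((4 * Y) ^ 10 * (C ^ 10 * Real.exp (ε / 4 * (Y + 3 / 2))) / n)) :=
          mul_le_mul_of_nonneg_right hcard (by positivity)
      _ = ((31 * 41 ^ 10 * 4 ^ 10 * C ^ 10 * Real.exp (3 * ε / 8)) * Y ^ 20) *
          Real.exp (ε / 4 * Y) / n := by
          have e3 : Real.exp (ε / 4 * (Y + 3 / 2)) =
              Real.exp (3 * ε / 8) * Real.exp (ε / 4 * Y) := by
            rw [← Real.exp_add]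
            congr 1
            ring
          rw [e3]
          ring
      _ ≤ Real.exp (3 * ε / 4 * Y) * Real.exp (ε / 4 * Y) / n := by
          apply div_le_div_of_nonneg_right _ hnpos.le
          exact mul_le_mul_of_nonneg_right hbig (Real.exp_pos _).le
      _ = Real.exp (ε * Y) / n := by
          rw [← Real.exp_add]
          congr 2
          ring

theorem big_exists (K b : ℝ) (hK : 0 < K) (hb : 0 < b) :
    ∃ Y₁ : ℝ, ∀ Y : ℝ, Y₁ ≤ Y → K * Y ^ 20 ≤ Real.exp (b * Y) := by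
  have h1 : Filter.Tendsto (fun Y : ℝ => (b * Y) ^ 20 * Real.exp (-(b * Y))) Filter.atTop
      (nhds 0) :=
    (Real.tendsto_pow_mul_exp_neg_atTop_nhds_zero 20).comp
      (Filter.tendsto_id.const_mul_atTop hb)
  have h2 : ∀ᶠ Y : ℝ in Filter.atTop, (b * Y) ^ 20 * Real.exp (-(b * Y)) < b ^ 20 / K :=
    (tendsto_order.1 h1).2 _ (by positivity)
  obtain ⟨Y₁, hY₁⟩ := Filter.eventually_atTop.1 h2
  refine ⟨Y₁, fun Y hY => ?_⟩
  have h3 := (hY₁ Y hY).le
  rw [mul_pow, Real.exp_neg, mul_assoc, ← div_eq_mul_inv, div_eq_mul_one_div (b ^ 20) K] at h3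
  have h4 : Y ^ 20 / Real.exp (b * Y) ≤ 1 / K := le_of_mul_le_mul_left h3 (by positivity)
  rw [div_le_div_iff₀ (Real.exp_pos _) hK] at h4
  linarith

theorem tup (hHB : S_HB) : S_TUP := by
  intro ε hε
  obtain ⟨C, hC, hdiv⟩ := Pool.Agent.Helper112.divisor_bound (ε / 40) (by positivity)
  obtain ⟨Y₁, hY₁⟩ := big_exists (31 * 41 ^ 10 * 4 ^ 10 * C ^ 10 * Real.exp (3 * ε / 8))
    (3 * ε / 4) (by positivity) (by positivity)
  refine ⟨max Y₁ 2, fun Y hY => ⟨aY Y, fun k => AA_eq Y k, ?_, ?_, ?_⟩⟩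
  · intro n hn h
    exact aY_eq hHB ((le_max_right _ _).trans hY) hn h
  · intro n hn
    exact aY_bound ((le_max_right _ _).trans hY) hε hC hdiv
      (hY₁ Y ((le_max_left _ _).trans hY)) hn
  · intro n _ h
    exact aY_zero h

end Pool.Agent.Q95.KS
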